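import Mathlib
import Pool.Agent.Helper58.PS.Defs
import Pool.Agent.Helper78.ST.Pre

/-!
# Project PS2, PS-5b: `2 i` primes in the cluster gives case A
-/

set_option autoImplicit false

namespace Pool.Agent.Helper58.PS

open Finset Pool.Agent.Helper6.Lehmer Pool.Agent.Helper6.LehmerCount Pool.Agent.Helper58.LT
open Pool.Agent.Helper6.PW Pool.Agent.Helper78.ST

/-- PS-5b: `2 i` primes in the cluster: case A -/
theorem toA (i K₀ : ℕ) (hi : 2 ≤ i) : ∃ K₁ : ℕ, ∀ K : ℕ, K₁ ≤ K → ∃ τ₀ : ℝ, 0 < τ₀ ∧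
    ∀ (l b w k n P : ℕ) (G : Finset ℕ), 1 ≤ w → (w : ℝ) ≤ τ₀ * l → Idx n k → n ≤ 2 ^ l →
      2 ^ (l - 1) < n → n.primeFactors.card ≤ w → IsP n P → Clus n l b w i K₀ P G →
      #G = 2 * i → ∃ α, α ≤ l ∧ |(α : ℝ) - b| ≤ K * w ∧ DataA n l (K * w) k i α b := by
  classical
  refine ⟨2 * (2 * i + 1) * K₀ + 4, fun K hK => ?_⟩
  have hiR : (2 : ℝ) ≤ i := by exact_mod_cast hi
  have hK0R : (0 : ℝ) ≤ K₀ := Nat.cast_nonneg _
  have hKR : 2 * (2 * (i : ℝ) + 1) * K₀ + 4 ≤ K := by exact_mod_cast hK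
  have hKpos : (4 : ℝ) ≤ K := by
    have : 0 ≤ 2 * (2 * (i : ℝ) + 1) * K₀ := by positivity
    linarith
  obtain ⟨M, hM⟩ : ∃ M : ℝ, M = 4 * ((2 * i + 1) * (3 * K₀ + 2 * K + 10) + K₀) := ⟨_, rfl⟩
  have hM0 : 0 < M := by rw [hM]; positivity
  refine ⟨1 / M, by positivity, ?_⟩
  intro l b w k n P G hw hwl h hn hn2 hc hP hG hGc
  have hwR : (1 : ℝ) ≤ w := by exact_mod_cast hw
  have hw0 : (0 : ℝ) < w := by linarith
  have hMl : M * w ≤ l := by
    rw [one_div, inv_mul_eq_div, le_div_iff₀ hM0] at hwl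
    linarith
  have l2 := Real.log_two_lt_d9
  have l2' := Real.log_two_gt_d9
  have l20 : 0 < Real.log 2 := by linarith
  have hn1 := h.lehmer.one_lt
  have hn0 : 0 < n := by omega
  have hnR : (0 : ℝ) < n := by exact_mod_cast hn0
  have hsq := h.lehmer.squarefree
  -- the size of `log P`
  obtain ⟨LP, hLP⟩ : ∃ LP, LP = Real.log P := ⟨_, rfl⟩
  have hsize := abs_le.1 hG.size
  rw [← hLP] at hsize
  have hLPbig : (3 * (K₀ : ℝ) + 2 * K + 10) * w ≤ LP := by
    have h1 : M * w / 2 ≤ (l : ℝ) * Real.log 2 := by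
      calc M * w / 2 ≤ (l : ℝ) / 2 := by linarith
        _ = (l : ℝ) * (1 / 2) := by ring
        _ ≤ (l : ℝ) * Real.log 2 := by
          apply mul_le_mul_of_nonneg_left (by linarith) (Nat.cast_nonneg _)
    have h2 : M * w / 2 - K₀ * w ≤ (2 * i + 1) * LP := by linarith [hsize.2]
    have h3 : (2 * (i : ℝ) + 1) * ((3 * (K₀ : ℝ) + 2 * K + 10) * w) ≤ M * w / 2 - K₀ * w := by
      rw [hM]
      have h4 : 0 ≤ (2 * (i : ℝ) + 1) * ((3 * (K₀ : ℝ) + 2 * K + 10) * w) := by positivity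
      have h5 : 0 ≤ (K₀ : ℝ) * w := by positivity
      nlinarith only [h4, h5]
    exact le_of_mul_le_mul_left (h3.trans h2) (by positivity)
  have hPp := Nat.prime_of_mem_primeFactors hP.1
  have hPR : (0 : ℝ) < P := by exact_mod_cast hPp.pos
  have hKw0 : 0 ≤ (K : ℝ) * w := by positivity
  have hK0w0 : 0 ≤ (K₀ : ℝ) * w := by positivity
  have hLP10 : 10 ≤ LP := by nlinarith only [hLPbig, hwR, hKw0, hK0w0]
  -- `b`
  have hb1 : (b : ℝ) * Real.log 2 ≤ LP := by
    have h1 : (2 : ℝ) ^ b ≤ P := by exact_mod_cast hG.P1.le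
    have h2 := Real.log_le_log (by positivity) h1
    rw [Real.log_pow] at h2
    rw [hLP]
    exact h2
  have hb2 : LP ≤ ((b : ℝ) + 1) * Real.log 2 := by
    have h1 : (P : ℝ) ≤ 2 ^ (b + 1) := by exact_mod_cast hG.P2
    have h2 := Real.log_le_log hPR h1
    rw [Real.log_pow] at h2
    push_cast at h2
    rw [hLP]
    exact h2
  have hbpos : 1 ≤ b := by
    by_contra hcon
    have : b = 0 := by omega
    rw [this] at hb2
    push_cast at hb2
    linarith only [hb2, hLP10, l2]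
  -- `G`
  have hGS := hG.sub
  have hGne : G.Nonempty := by
    rw [← card_pos]
    have := hG.card1
    omega
  obtain ⟨q₁, hq₁⟩ : ∃ q₁, q₁ = G.min' hGne := ⟨_, rfl⟩
  have hq₁G : q₁ ∈ G := by rw [hq₁]; exact min'_mem _ _
  have hq₁min : ∀ q ∈ G, q₁ ≤ q := by
    intro q hq
    rw [hq₁]
    exact min'_le _ _ hq
  have hq₁S : q₁ ∈ n.primeFactors := hGS hq₁G
  have hpos : ∀ q ∈ n.primeFactors, (0 : ℝ) < q := by
    intro q hq
    exact_mod_cast (Nat.prime_of_mem_primeFactors hq).pos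
  have hseg : n.primeFactors.filter (fun a => a < q₁) = n.primeFactors \ G := by
    ext x
    rw [mem_filter, mem_sdiff]
    constructor
    · rintro ⟨h1, h2⟩
      exact ⟨h1, fun h3 => absurd (hq₁min x h3) (by omega)⟩
    · rintro ⟨h1, h2⟩
      refine ⟨h1, ?_⟩
      have h3 := hG.small x h1 h2
      have h4 := hG.lo q₁ hq₁G
      rw [← hLP] at h3 h4
      have h5 : Real.log x < Real.log q₁ := by
        nlinarith only [h3, h4, hLPbig, hKw0, hK0w0, hw0]
      have h6 := (Real.log_lt_log_iff (hpos x h1) (hpos q₁ hq₁S)).1 h5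
      exact_mod_cast h6
  -- the two halves of `G`
  obtain ⟨C, hCG, hCc⟩ : ∃ C ⊆ G, #C = i := exists_subset_card_eq (by omega)
  have hCS : C ⊆ n.primeFactors := hCG.trans hGS
  have hFS : G \ C ⊆ n.primeFactors := sdiff_subset.trans hGS
  have hFc : #(G \ C) = i := by
    rw [card_sdiff_of_subset hCG]
    omega
  obtain ⟨a, ha⟩ : ∃ a, a = ∏ p ∈ n.primeFactors \ G, p := ⟨_, rfl⟩
  obtain ⟨d, hd⟩ : ∃ d, d = ∏ p ∈ C, p := ⟨_, rfl⟩
  obtain ⟨f, hf⟩ : ∃ f, f = ∏ p ∈ G \ C, p := ⟨_, rfl⟩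
  have hasm : sm q₁ n = a := by
    unfold sm
    rw [hseg, ha]
  have ha0 : 0 < a := by rw [ha]; exact prod_sub_pos sdiff_subset
  have hd0 : 0 < d := by rw [hd]; exact prod_sub_pos hCS
  have hf0 : 0 < f := by rw [hf]; exact prod_sub_pos hFS
  have haR : (0 : ℝ) < a := by exact_mod_cast ha0
  have hdR : (0 : ℝ) < d := by exact_mod_cast hd0
  have hfR : (0 : ℝ) < f := by exact_mod_cast hf0
  have hnad : n = a * d * f := by
    have h1 : d * f = ∏ p ∈ G, p := by
      rw [hd, hf, ← Finset.prod_union disjoint_sdiff, union_sdiff_of_subset hCG]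
    have h2 : a * ∏ p ∈ G, p = n := by
      rw [ha, ← Finset.prod_union sdiff_disjoint, sdiff_union_of_subset hGS]
      exact Nat.prod_primeFactors_of_squarefree hsq
    rw [mul_assoc, h1, h2]
  have hlogn : Real.log n = Real.log a + Real.log d + Real.log f := by
    rw [hnad]
    push_cast
    rw [Real.log_mul (by positivity) hfR.ne', Real.log_mul haR.ne' hdR.ne']
  have hls : ∀ J ⊆ G, #J = i → i * (LP - K₀ * w) ≤ ls J ∧ ls J ≤ i * LP := by
    intro J hJ hJc
    constructor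
    · have h1 : #J • (LP - K₀ * w) ≤ ls J := by
        unfold ls
        apply Finset.card_nsmul_le_sum
        intro q hq
        have := hG.lo q (hJ hq)
        rw [← hLP] at this
        exact this
      rw [nsmul_eq_mul, hJc] at h1
      exact h1
    · have h1 : ls J ≤ #J • LP := by
        unfold ls
        apply Finset.sum_le_card_nsmul
        intro q hq
        rw [hLP]
        exact Real.log_le_log (hpos q (hGS (hJ hq))) (by exact_mod_cast hG.hi q (hJ hq))
      rw [nsmul_eq_mul, hJc] at h1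
      exact h1
  have hlsd : ls C = Real.log d := by rw [hd]; exact ls_prod _ (sub_pos hCS)
  have hlsf : ls (G \ C) = Real.log f := by rw [hf]; exact ls_prod _ (sub_pos hFS)
  obtain ⟨hd1, hd2⟩ := hls C hCG hCc
  obtain ⟨hf1, hf2⟩ := hls (G \ C) sdiff_subset hFc
  rw [hlsd] at hd1 hd2
  rw [hlsf] at hf1 hf2
  -- `log n`
  have hl1 : 1 ≤ l := by
    by_contra hcon
    have : l = 0 := by omega
    rw [this] at hn
    simp at hn
    omega
  have hnlog1 : ((l : ℝ) - 1) * Real.log 2 ≤ Real.log n := by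
    have h1 : (2 : ℝ) ^ (l - 1) ≤ n := by exact_mod_cast hn2.le
    have h2 := Real.log_le_log (by positivity) h1
    rw [Real.log_pow, Nat.cast_sub hl1, Nat.cast_one] at h2
    exact h2
  have hnlog2 : Real.log n ≤ (l : ℝ) * Real.log 2 := by
    have h1 : (n : ℝ) ≤ 2 ^ l := by exact_mod_cast hn
    have h2 := Real.log_le_log hnR h1
    rw [Real.log_pow] at h2
    exact h2
  -- `log a`
  have hloga1 : LP - K₀ * w - 1 ≤ Real.log a := by
    nlinarith only [hlogn, hnlog1, hd2, hf2, hsize.1, l2]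
  have hloga2 : Real.log a ≤ LP + (2 * i + 1) * (K₀ * w) := by
    nlinarith only [hlogn, hnlog2, hd1, hf1, hsize.2]
  obtain ⟨α, hα⟩ : ∃ α, α = Nat.log 2 a := ⟨_, rfl⟩
  obtain ⟨hα1, hα2⟩ := natlog_bounds ha0
  rw [← hα] at hα1 hα2
  have han : a ≤ n := by rw [ha]; exact prod_sub_le hn0 sdiff_subset
  have hαl : α ≤ l := by rw [hα]; exact natlog_le (han.trans hn)
  have h2α : 2 ^ α ≤ a := by rw [hα]; exact Nat.pow_log_le_self 2 ha0.ne'
  have h2α' : a < 2 * 2 ^ α := by
    have : a < 2 ^ (α + 1) := by rw [hα]; exact Nat.lt_pow_succ_log_self (by norm_num) a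
    rw [pow_succ] at this
    omega
  -- the primes of `G`
  have hWR : (((K * w : ℕ)) : ℝ) = K * w := by push_cast; ring
  have hGreal : ∀ q ∈ G, (2 : ℝ) ^ b * Real.exp (-4 * ((K * w : ℕ) : ℝ)) ≤ q := by
    intro q hq
    have h1 := hG.lo q hq
    rw [← hLP] at h1
    have h2 : Real.log ((2 : ℝ) ^ b * Real.exp (-4 * ((K * w : ℕ) : ℝ))) ≤ Real.log q := by
      rw [Real.log_mul (by positivity) (Real.exp_pos _).ne', Real.log_exp, Real.log_pow, hWR]
      have h3 : (K₀ : ℝ) * w ≤ K * w := by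
        apply mul_le_mul_of_nonneg_right _ hw0.le
        nlinarith only [hKR, hiR, hK0R]
      linarith only [h1, hb1, h3, hKw0]
    exact (Real.log_le_log_iff (by positivity) (hpos q (hGS hq))).1 h2
  have hGlt : ∀ q ∈ G, q < 2 ^ (b + 1) := by
    intro q hq
    refine lt_of_le_of_ne ((hG.hi q hq).trans hG.P2) ?_
    intro hcon
    have hqp := Nat.prime_of_mem_primeFactors (hGS hq)
    have h3 := h.lehmer.three_le hqp (Nat.dvd_of_mem_primeFactors (hGS hq))
    have h4 : 2 ∣ q := by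
      rw [hcon, pow_succ]
      exact Dvd.intro_left _ rfl
    have h5 := (Nat.prime_dvd_prime_iff_eq Nat.prime_two hqp).1 h4
    omega
  have hf1' : 1 < f := by
    have h1 : 0 < Real.log f := by
      have h2 : 2 * (LP - K₀ * w) ≤ i * (LP - K₀ * w) := by
        apply mul_le_mul_of_nonneg_right hiR
        nlinarith only [hLPbig, hKw0, hK0w0, hw0]
      nlinarith only [hf1, h2, hLPbig, hKw0, hK0w0, hw0]
    by_contra hcon
    have h2 : (f : ℝ) ≤ 1 := by exact_mod_cast (by omega : f ≤ 1)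
    have h3 := Real.log_nonpos hfR.le h2
    linarith
  let e := C.equivFinOfCardEq hCc
  have hprod : ∏ j : Fin i, ((e.symm j : C) : ℕ) = d := by
    rw [Equiv.prod_comp e.symm (fun x : C => (x : ℕ)), hd]
    exact Finset.prod_coe_sort C (fun p => p)
  refine ⟨α, hαl, ?_, a, f, fun j => ((e.symm j : C) : ℕ), ?_, ?_, ?_, ?_, hf1', ?_, ?_⟩
  · rw [abs_le]
    constructor
    · have h1 : (α + 1 : ℝ) * Real.log 2 ≥ (b : ℝ) * Real.log 2 - K₀ * w - 1 := by
        linarith only [hα2, hloga1, hb1]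
      have h2 : (α + 1 : ℝ) * Real.log 2 - (b : ℝ) * Real.log 2 = ((α : ℝ) + 1 - b) * Real.log 2 := by
        ring
      by_contra hcon
      rw [not_le] at hcon
      have h3 : ((α : ℝ) + 1 - b) < 1 - K * w := by linarith only [hcon]
      have h4 : (1 : ℝ) - K * w ≤ -(2 * ((K₀ : ℝ) * w + 1)) := by
        have h5 : (2 * (2 * (i : ℝ) + 1) * K₀ + 4) * w ≤ K * w := mul_le_mul_of_nonneg_right hKR hw0.le
        have h6 : 0 ≤ (i : ℝ) * K₀ * w := by positivity
        nlinarith only [h5, h6, hwR, hK0w0]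
      have h5 : ((α : ℝ) + 1 - b) * Real.log 2 < -(2 * ((K₀ : ℝ) * w + 1)) * Real.log 2 :=
        mul_lt_mul_of_pos_right (by linarith) l20
      have h6 : -(2 * ((K₀ : ℝ) * w + 1)) * Real.log 2 ≤ -((K₀ : ℝ) * w + 1) := by
        have : ((K₀ : ℝ) * w + 1) * 1 ≤ ((K₀ : ℝ) * w + 1) * (2 * Real.log 2) := by
          apply mul_le_mul_of_nonneg_left (by linarith) (by linarith)
        linarith only [this]
      linarith only [h1, h2, h5, h6]
    · have h1 : (α : ℝ) * Real.log 2 ≤ ((b : ℝ) + 1) * Real.log 2 + (2 * i + 1) * (K₀ * w) := by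
        linarith only [hα1, hloga2, hb2]
      by_contra hcon
      rw [not_le] at hcon
      have h4 : (1 : ℝ) + 2 * ((2 * i + 1) * (K₀ * w)) ≤ K * w := by
        have h5 : (2 * (2 * (i : ℝ) + 1) * K₀ + 4) * w ≤ K * w := mul_le_mul_of_nonneg_right hKR hw0.le
        nlinarith only [h5, hwR]
      have h5 : ((1 : ℝ) + 2 * ((2 * i + 1) * (K₀ * w))) * Real.log 2 < ((α : ℝ) - b) * Real.log 2 :=
        mul_lt_mul_of_pos_right (by linarith) l20
      have h6 : ((2 : ℝ) * i + 1) * (K₀ * w) ≤ 2 * ((2 * i + 1) * (K₀ * w)) * Real.log 2 := by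
        have : ((2 * i + 1) * (K₀ * w) : ℝ) * 1 ≤ ((2 * i + 1) * (K₀ * w)) * (2 * Real.log 2) := by
          apply mul_le_mul_of_nonneg_left (by linarith) (by positivity)
        linarith only [this]
      linarith only [h1, h5, h6]
  · rw [hprod]
    exact hnad
  · rw [← hasm]
    have hKnat : 4 ≤ K := by exact_mod_cast hKpos
    apply sm_mem h (hc.trans (Nat.le_mul_of_pos_left w (by omega))) hq₁S _ (by positivity)
      (hGreal q₁ hq₁G)
    · rw [hasm]; exact h2α
    · rw [hasm]; exact h2α'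
    · have h1 := hG.lo q₁ hq₁G
      rw [← hLP] at h1
      have h2 := Real.log_le_sub_one_of_pos (hpos q₁ hq₁S)
      have h3 : (2 * (K * w) : ℝ) ≤ q₁ := by
        nlinarith only [h1, h2, hLPbig, hKw0, hK0w0, hw0]
      exact_mod_cast h3
  · intro j
    have hmem : ((e.symm j : C) : ℕ) ∈ C := (e.symm j).2
    exact ⟨Nat.prime_of_mem_primeFactors (hCS hmem), hGreal _ (hCG hmem), hGlt _ (hCG hmem)⟩
  · intro j j' hjj
    exact e.symm.injective (Subtype.ext hjj)
  · rw [hprod]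
    have h1 : (l : ℝ) * Real.log 2 ≤ 2 * (Real.log a + Real.log d) := by
      nlinarith only [hlogn, hnlog1, hf2, hsize.1, hLPbig, hKw0, hK0w0, hwR, l2, hLP10]
    have h2 : Real.log ((2 : ℝ) ^ l) ≤ Real.log (((a : ℝ) * d) ^ 2) := by
      rw [Real.log_pow, Real.log_pow, Real.log_mul haR.ne' hdR.ne']
      push_cast
      exact h1
    have h3 := (Real.log_le_log_iff (by positivity) (by positivity)).1 h2
    exact_mod_cast h3
  · have h1 : Real.log f ≤ Real.log ((2 : ℝ) ^ ((l : ℝ) / 2 - (b : ℝ) / 2) *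
        Real.exp (((K * w : ℕ) : ℝ) + 1)) := by
      rw [Real.log_mul (by positivity) (Real.exp_pos _).ne', Real.log_exp,
        Real.log_rpow (by norm_num), hWR]
      have h3 : (K₀ : ℝ) * w ≤ K * w := by
        apply mul_le_mul_of_nonneg_right _ hw0.le
        nlinarith only [hKR, hiR, hK0R]
      nlinarith only [hf2, hsize.1, hb1, h3, hKw0, hK0w0]
    exact (Real.log_le_log_iff hfR (by positivity)).1 h1

end Pool.Agent.Helper58.PS
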