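import Mathlib
import Pool.Agent.Helper58.PS.Defs
import Pool.Agent.Helper78.ST.Pre
import Pool.Agent.Helper78.PS.Split2

/-!
# Project PS2, PS-5c: fewer than `2 i` primes in the cluster, the split
-/

set_option autoImplicit false

namespace Pool.Agent.Helper58.PS

open Finset Pool.Agent.Helper6.Lehmer Pool.Agent.Helper6.LehmerCount Pool.Agent.Helper58.LT
open Pool.Agent.Helper6.PW Pool.Agent.Helper78.ST

/-- PS-5c3: the split -/
theorem toC_pre (i K₀ : ℕ) (hi : 2 ≤ i) : ∃ τ₀ : ℝ, 0 < τ₀ ∧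
    ∀ (l b w k n P : ℕ) (G : Finset ℕ), 1 ≤ w → (w : ℝ) ≤ τ₀ * l → Idx n k → n ≤ 2 ^ l →
      2 ^ (l - 1) < n → n.primeFactors.card ≤ w → ¬ NSfail n l w → IsP n P →
      Clus n l b w i K₀ P G → #G < 2 * i →
      ∃ (q : ℕ) (F : Finset ℕ) (ℓ : ℝ), F ⊆ G ∧ #F = i ∧ q ∈ n.primeFactors ∧ q ∉ G ∧
        (∀ p ∈ n.primeFactors, p ∈ G ∨ p ≤ q) ∧ (∀ p ∈ G, q < p) ∧
        ℓ = 2 * (Real.log n - (l : ℝ) * Real.log 2 / 2 - ls F) ∧ 0 ≤ ℓ ∧
        Real.log P - K₀ * w - 2 * Real.log 2 ≤ ℓ ∧ ℓ ≤ Real.log P + (2 * i + 1) * K₀ * w ∧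
        ((∃ q' ∈ n.primeFactors, q' < q ∧ 5 * (w : ℝ) < Real.log q' ∧ ∃ J₁ J₂ : Finset ℕ,
            Disjoint J₁ J₂ ∧ J₁ ∪ J₂ = n.primeFactors.filter (fun a => q' < a ∧ a < q) ∧
            |ls J₁ - (ℓ - Real.log q') / 2| ≤ w ∧ |ls J₂ - (ℓ - Real.log q') / 2| ≤ w) ∨
          (∃ J₁ J₂ : Finset ℕ, J₁ ⊆ n.primeFactors.filter (fun a => a < q) ∧
            J₂ ⊆ n.primeFactors.filter (fun a => a < q) ∧ Disjoint J₁ J₂ ∧
            |ls J₁ - ℓ / 2| ≤ 6 * w ∧ |ls J₂ - ℓ / 2| ≤ 6 * w)) := by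
  classical
  have hiR : (2 : ℝ) ≤ i := by exact_mod_cast hi
  have hK0R : (0 : ℝ) ≤ K₀ := Nat.cast_nonneg _
  obtain ⟨L0, hL0⟩ : ∃ L0 : ℝ, L0 = 3 * ((2 * i + 3) * K₀ + 40) := ⟨_, rfl⟩
  have hL00 : 0 < L0 := by rw [hL0]; positivity
  obtain ⟨M, hM⟩ : ∃ M : ℝ, M = 4 * ((2 * i + 1) * L0 + K₀) := ⟨_, rfl⟩
  have hM0 : 0 < M := by rw [hM]; positivity
  refine ⟨1 / M, by positivity, ?_⟩
  intro l b w k n P G hw hwl h hn hn2 hc hNS hP hG hGc
  have hwR : (1 : ℝ) ≤ w := by exact_mod_cast hw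
  have hw0 : (0 : ℝ) < w := by linarith
  have hMl : M * w ≤ l := by
    rw [one_div, inv_mul_eq_div, le_div_iff₀ hM0] at hwl
    linarith
  have l2 := Real.log_two_lt_d9
  have l2' := Real.log_two_gt_d9
  have l20 : 0 < Real.log 2 := by linarith
  have hn1 := h.lehmer.one_lt
  have hn0 : 0 < n := by omega
  have hnR : (0 : ℝ) < n := by exact_mod_cast hn0
  have hsq := h.lehmer.squarefree
  obtain ⟨X, hX⟩ : ∃ X, X = (l : ℝ) * Real.log 2 := ⟨_, rfl⟩
  -- the size of `log P`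
  obtain ⟨LP, hLP⟩ : ∃ LP, LP = Real.log P := ⟨_, rfl⟩
  have hsize := abs_le.1 hG.size
  rw [← hLP, ← hX] at hsize
  have hLPbig : L0 * w ≤ LP := by
    have h1 : M * w / 2 ≤ X := by
      calc M * w / 2 ≤ (l : ℝ) / 2 := by linarith
        _ = (l : ℝ) * (1 / 2) := by ring
        _ ≤ (l : ℝ) * Real.log 2 := by
          apply mul_le_mul_of_nonneg_left (by linarith) (Nat.cast_nonneg _)
        _ = X := hX.symm
    have h2 : M * w / 2 - K₀ * w ≤ (2 * i + 1) * LP := by linarith [hsize.2]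
    have h3 : (2 * (i : ℝ) + 1) * (L0 * w) ≤ M * w / 2 - K₀ * w := by
      rw [hM]
      have h4 : 0 ≤ (2 * (i : ℝ) + 1) * (L0 * w) := by positivity
      have h5 : 0 ≤ (K₀ : ℝ) * w := by positivity
      nlinarith only [h4, h5]
    exact le_of_mul_le_mul_left (h3.trans h2) (by positivity)
  have hPp := Nat.prime_of_mem_primeFactors hP.1
  have hPR : (0 : ℝ) < P := by exact_mod_cast hPp.pos
  obtain ⟨κ, hκ⟩ : ∃ κ : ℝ, κ = K₀ * w := ⟨_, rfl⟩
  have hκ0 : 0 ≤ κ := by rw [hκ]; positivity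
  have hiκ : 0 ≤ (i : ℝ) * κ := by positivity
  rw [← hκ] at hsize
  have hLPbig' : 3 * ((2 * i + 3) * κ + 40 * w) ≤ LP := by
    have : 3 * ((2 * i + 3) * κ + 40 * w) = L0 * w := by rw [hκ, hL0]; ring
    rw [this]
    exact hLPbig
  have hLP1 : 3 * (2 * (i * κ) + 3 * κ + 40 * w) ≤ LP := by linarith
  -- `G`
  have hGS := hG.sub
  have hpos : ∀ q ∈ n.primeFactors, (0 : ℝ) < q := by
    intro q hq
    exact_mod_cast (Nat.prime_of_mem_primeFactors hq).pos
  have hlsn : ls n.primeFactors = Real.log n := by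
    rw [ls_prod _ (sub_pos (Finset.Subset.refl _)), Nat.prod_primeFactors_of_squarefree hsq]
  have hup : ∀ J ⊆ G, ls J ≤ #J * LP := by
    intro J hJ
    have h1 : ls J ≤ #J • LP := by
      unfold ls
      apply Finset.sum_le_card_nsmul
      intro q hq
      rw [hLP]
      exact Real.log_le_log (hpos q (hGS (hJ hq))) (by exact_mod_cast hG.hi q (hJ hq))
    rw [nsmul_eq_mul] at h1
    exact h1
  have hdn : ∀ J ⊆ G, #J * (LP - κ) ≤ ls J := by
    intro J hJ
    have h1 : #J • (LP - κ) ≤ ls J := by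
      unfold ls
      apply Finset.card_nsmul_le_sum
      intro q hq
      have := hG.lo q (hJ hq)
      rw [← hLP, ← hκ] at this
      exact this
    rw [nsmul_eq_mul] at h1
    exact h1
  -- `log n`
  have hl1 : 1 ≤ l := by
    by_contra hcon
    have : l = 0 := by omega
    rw [this] at hn
    simp at hn
    omega
  have hnlog1 : X - Real.log 2 ≤ Real.log n := by
    have h1 : (2 : ℝ) ^ (l - 1) ≤ n := by exact_mod_cast hn2.le
    have h2 := Real.log_le_log (by positivity) h1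
    rw [Real.log_pow, Nat.cast_sub hl1, Nat.cast_one] at h2
    rw [hX]
    linarith
  have hnlog2 : Real.log n ≤ X := by
    have h1 : (n : ℝ) ≤ 2 ^ l := by exact_mod_cast hn
    have h2 := Real.log_le_log hnR h1
    rw [Real.log_pow] at h2
    rw [hX]
    exact h2
  -- the complement of `G`
  have hGcR : (#G : ℝ) ≤ 2 * i - 1 := by
    have : #G + 1 ≤ 2 * i := by omega
    have h1 : (#G : ℝ) + 1 ≤ 2 * i := by exact_mod_cast this
    linarith
  have hLP0 : 0 < LP := by nlinarith only [hLP1, hiκ, hκ0, hwR]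
  have hlsG : ls G ≤ (2 * i - 1) * LP :=
    (hup G (Finset.Subset.refl _)).trans (mul_le_mul_of_nonneg_right hGcR hLP0.le)
  have hlsT : ls (n.primeFactors \ G) = Real.log n - ls G := by
    have h1 := ls_union (sdiff_disjoint : Disjoint (n.primeFactors \ G) G)
    rw [sdiff_union_of_subset hGS, hlsn] at h1
    linarith
  have hT2 : 2 * LP - κ - Real.log 2 ≤ ls (n.primeFactors \ G) := by
    rw [hlsT]
    nlinarith only [hlsG, hnlog1, hsize.1]
  have hTne : (n.primeFactors \ G).Nonempty := by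
    rw [Finset.nonempty_iff_ne_empty]
    intro h0
    rw [h0] at hT2
    unfold ls at hT2
    rw [Finset.sum_empty] at hT2
    nlinarith only [hT2, hLP1, hiκ, hκ0, hwR, l2]
  obtain ⟨q, hqdef⟩ : ∃ q, q = (n.primeFactors \ G).max' hTne := ⟨_, rfl⟩
  have hqT : q ∈ n.primeFactors \ G := by rw [hqdef]; exact max'_mem _ _
  have hqmax : ∀ p ∈ n.primeFactors \ G, p ≤ q := by
    intro p hp
    rw [hqdef]
    exact le_max' _ _ hp
  rw [mem_sdiff] at hqT
  obtain ⟨hqS, hqG⟩ := hqT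
  have hqlog : Real.log q ≤ LP / 3 + κ := by
    have := hG.small q hqS hqG
    rw [← hLP, ← hκ] at this
    exact this
  have hGq : ∀ p ∈ G, q < p := by
    intro p hp
    have h4 := hG.lo p hp
    rw [← hLP, ← hκ] at h4
    have h5 : Real.log q < Real.log p := by
      nlinarith only [hqlog, h4, hLP1, hiκ, hκ0, hwR]
    have h6 := (Real.log_lt_log_iff (hpos q hqS) (hpos p (hGS hp))).1 h5
    exact_mod_cast h6
  -- `F`, `ℓ`
  obtain ⟨F, hFG, hFc⟩ : ∃ F ⊆ G, #F = i := exists_subset_card_eq (by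
    have := hG.card1
    omega)
  have hFS : F ⊆ n.primeFactors := hFG.trans hGS
  have hF1 : ls F ≤ i * LP := by
    have := hup F hFG
    rw [hFc] at this
    exact this
  have hF2 : i * LP - i * κ ≤ ls F := by
    have := hdn F hFG
    rw [hFc] at this
    linarith
  obtain ⟨ℓ, hℓ⟩ : ∃ ℓ : ℝ, ℓ = 2 * (Real.log n - X / 2 - ls F) := ⟨_, rfl⟩
  have hℓ1 : LP - κ - 2 * Real.log 2 ≤ ℓ := by
    rw [hℓ]
    linarith only [hF1, hnlog1, hsize.1]
  have hℓ2 : ℓ ≤ LP + (2 * (i * κ) + κ) := by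
    rw [hℓ]
    linarith only [hF2, hnlog2, hsize.2]
  -- `A`
  obtain ⟨A, hA⟩ : ∃ A, A = n.primeFactors.filter (fun a => a < q) := ⟨_, rfl⟩
  have hAS : A ⊆ n.primeFactors := by rw [hA]; exact filter_subset _ _
  have hAq : ∀ a ∈ A, a < q := by
    intro a ha
    rw [hA, mem_filter] at ha
    exact ha.2
  have hAG : ∀ a ∈ A, a ∉ G := fun a ha haG => absurd (hGq a haG) (by
    have := hAq a ha
    omega)
  have hTA : n.primeFactors \ G = insert q A := by
    ext x
    rw [mem_sdiff, mem_insert, hA, mem_filter]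
    constructor
    · rintro ⟨h1, h2⟩
      rcases (hqmax x (mem_sdiff.2 ⟨h1, h2⟩)).eq_or_lt with h3 | h3
      · exact Or.inl h3
      · exact Or.inr ⟨h1, h3⟩
    · rintro (rfl | ⟨h1, h2⟩)
      · exact ⟨hqS, hqG⟩
      · exact ⟨h1, fun h3 => absurd (hGq x h3) (by omega)⟩
  have hqA : q ∉ A := fun hq => absurd (hAq q hq) (by omega)
  have hlsA : 2 * LP - κ - Real.log 2 - (LP / 3 + κ) ≤ ls A := by
    have h1 : ls (n.primeFactors \ G) = Real.log q + ls A := by
      rw [hTA]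
      unfold ls
      rw [Finset.sum_insert hqA]
    rw [h1] at hT2
    linarith only [hT2, hqlog]
  -- the condition NS
  have hNS' : ∀ e ∈ A, ∀ J ⊆ A.filter (fun a => e ≤ a), Real.log e / 2 - w ≤ |ℓ / 2 - ls J| := by
    intro e he J hJ
    by_contra hcon
    rw [not_le] at hcon
    apply hNS
    have heS := hAS he
    have hJA : J ⊆ A := hJ.trans (filter_subset _ _)
    have hJe : ∀ a ∈ J, e ≤ a := fun a ha => (mem_filter.1 (hJ ha)).2
    have hJF : Disjoint J F := by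
      rw [Finset.disjoint_left]
      intro a ha haF
      exact hAG a (hJA ha) (hFG haF)
    obtain ⟨I, hI⟩ : ∃ I, I = (n.primeFactors.filter (fun a => ¬ a < e)) \ (J ∪ F) := ⟨_, rfl⟩
    have hIsub : I ⊆ n.primeFactors.filter (fun a => ¬ a < e) := by rw [hI]; exact sdiff_subset
    have hJFsub : J ∪ F ⊆ n.primeFactors.filter (fun a => ¬ a < e) := by
      intro a ha
      rw [mem_filter]
      rcases mem_union.1 ha with h1 | h1
      · exact ⟨hAS (hJA h1), by
          have := hJe a h1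
          omega⟩
      · refine ⟨hFS h1, ?_⟩
        have h2 := hGq a (hFG h1)
        have h3 := hAq e he
        omega
    refine ⟨e, heS, ∏ p ∈ I, p, ?_, ?_⟩
    · unfold lg
      exact Finset.prod_dvd_prod_of_subset _ _ _ hIsub
    · have h1 : ls (n.primeFactors.filter (fun a => a < e)) = Real.log (sm e n) := by
        rw [ls_prod _ (sub_pos (filter_subset _ _))]
        rfl
      have h2 : ls I = Real.log ((∏ p ∈ I, p : ℕ) : ℝ) :=
        ls_prod I (sub_pos (hIsub.trans (filter_subset _ _)))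
      have h3 : ls (n.primeFactors.filter (fun a => ¬ a < e)) = ls I + (ls J + ls F) := by
        rw [← ls_union hJF, ← ls_union (by rw [hI]; exact sdiff_disjoint), hI,
          sdiff_union_of_subset hJFsub]
      have h4 : ls n.primeFactors = ls (n.primeFactors.filter (fun a => a < e)) +
          ls (n.primeFactors.filter (fun a => ¬ a < e)) := by
        unfold ls
        rw [Finset.sum_filter_add_sum_filter_not]
      rw [hlsn] at h4
      rw [← h1, ← h2]
      have h5 : ls (n.primeFactors.filter (fun a => a < e)) + ls I - (l : ℝ) * Real.log 2 / 2 =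
          ℓ / 2 - ls J := by
        rw [hℓ, ← hX]
        linarith only [h3, h4]
      rw [h5]
      exact hcon
  have hX' : ℓ = 2 * (Real.log n - (l : ℝ) * Real.log 2 / 2 - ls F) := by rw [hℓ, hX]
  have hκ' : (2 * (i * κ) + κ) = (2 * (i : ℝ) + 1) * K₀ * w := by rw [hκ]; ring
  refine ⟨q, F, ℓ, hFG, hFc, hqS, hqG, ?_, hGq, hX', ?_, ?_, ?_, ?_⟩
  · intro p hp
    by_cases hpG : p ∈ G
    · exact Or.inl hpG
    · exact Or.inr (hqmax p (mem_sdiff.2 ⟨hp, hpG⟩))
  · nlinarith only [hℓ1, hLP1, hiκ, hκ0, hwR, l2]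
  · rw [← hLP, ← hκ]
    exact hℓ1
  · rw [← hLP, ← hκ']
    exact hℓ2
  · have hsp := split2 A (fun e => Real.log (e : ℝ)) ℓ w ?_ ?_ ?_ hNS' hw0 ?_ ?_
    · rcases hsp with ⟨q', hq'A, hq'5, J₁, J₂, hd, hu, h1, h2⟩ | ⟨J₁, J₂, hJ1, hJ2, hd, h1, h2⟩
      · left
        refine ⟨q', hAS hq'A, hAq q' hq'A, hq'5, J₁, J₂, hd, ?_, h1, h2⟩
        rw [hu, hA, filter_filter]
        congr 1
        ext x
        exact and_comm
      · right
        rw [hA] at hJ1 hJ2
        exact ⟨J₁, J₂, hJ1, hJ2, hd, h1, h2⟩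
    · intro e he
      have := (Nat.prime_of_mem_primeFactors (hAS he)).one_lt
      exact Real.log_pos (by exact_mod_cast this)
    · intro e he f hf hef
      exact Real.log_le_log (hpos e (hAS he)) (by exact_mod_cast hef)
    · intro e he
      have h1 : Real.log e ≤ Real.log q :=
        Real.log_le_log (hpos e (hAS he)) (by exact_mod_cast (hAq e he).le)
      show Real.log e ≤ ℓ
      nlinarith only [h1, hqlog, hℓ1, hLP1, hiκ, hκ0, hwR, l2]
    · show ℓ + 20 * (w : ℝ) ≤ ls A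
      nlinarith only [hlsA, hℓ2, hLP1, hiκ, hκ0, hwR, l2]
    · nlinarith only [hℓ1, hLP1, hiκ, hκ0, hwR, l2]

end Pool.Agent.Helper58.PS
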