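import Mathlib
import Pool.Agent.Helper58.PS.Defs
import Pool.Agent.Helper13.PS.LsetW
import Pool.Agent.Helper47.PS.ToCPre

/-!
# Project PS2, PS-5c: fewer than `2 i` primes in the cluster: case C, from `toC_fin`
-/

set_option autoImplicit false

namespace Pool.Agent.Helper58.PS

open Finset Pool.Agent.Helper6.Lehmer Pool.Agent.Helper6.LehmerCount Pool.Agent.Helper58.LT
open Pool.Agent.Helper6.PW Pool.Agent.Helper78.ST

/-- PS-5c from its last part `toC_fin` -/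
theorem toC_of
    (hfin : ∀ (i K₀ K l b w k n P q θ' : ℕ) (lq ℓ : ℝ) (G F J₁ J₂ M : Finset ℕ), 2 ≤ i →
      5 * K₀ + (2 * i + 1) * K₀ + 2 * i + 20 ≤ K → 1 ≤ w → Idx n k →
      n ≤ 2 ^ l → 2 ^ (l - 1) < n → Clus n l b w i K₀ P G → IsP n P →
      F ⊆ G → #F = i → q ∈ n.primeFactors → q ∉ G →
      (∀ p ∈ n.primeFactors, p ∈ G ∨ p ≤ q) →
      M ⊆ n.primeFactors → J₁ ⊆ n.primeFactors → J₂ ⊆ n.primeFactors →
      Disjoint M J₁ → Disjoint M J₂ → Disjoint J₁ J₂ →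
      (∀ p ∈ M ∪ J₁ ∪ J₂, p < q) → (∀ p ∈ M ∪ J₁ ∪ J₂, p ∉ G) →
      ∏ p ∈ M, p ∈ Lset k (K * w) ((2 : ℝ) ^ θ') (2 ^ Nat.log 2 (∏ p ∈ M, p)) →
      (2 : ℝ) ^ θ' ≤ 4 * ((K * w : ℕ) : ℝ) * 2 ^ Nat.log 2 (∏ p ∈ M, p) →
      θ' ≤ l → (θ' : ℝ) * Real.log 2 ≤ lq → lq ≤ ((θ' : ℝ) + 1) * Real.log 2 →
      ℓ = 2 * (Real.log n - (l : ℝ) * Real.log 2 / 2 - ls F) → 0 ≤ ℓ →
      Real.log P - K₀ * w - 2 * Real.log 2 ≤ ℓ →
      ℓ ≤ Real.log P + (2 * i + 1) * K₀ * w →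
      |ls J₁ - (ℓ - lq) / 2| ≤ 6 * w → |ls J₂ - (ℓ - lq) / 2| ≤ 6 * w →
      ∃ μ ν θ' θ, μ ≤ l ∧ ν ≤ l ∧ θ' ≤ l ∧ θ ≤ l ∧ ConC l (K * w) μ ν θ' θ b ∧
        DataC n l (K * w) k μ ν θ' θ b ∧ ∀ p ∈ n.primeFactors, p ∈ G ∨ p < 2 ^ (θ + 1))
    (i K₀ : ℕ) (hi : 2 ≤ i) : ∃ K₁ : ℕ, ∀ K : ℕ, K₁ ≤ K → ∃ τ₀ : ℝ, 0 < τ₀ ∧
    ∀ (l b w k n P : ℕ) (G : Finset ℕ), 1 ≤ w → (w : ℝ) ≤ τ₀ * l → Idx n k → n ≤ 2 ^ l →
      2 ^ (l - 1) < n → n.primeFactors.card ≤ w → ¬ NSfail n l w → IsP n P →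
      Clus n l b w i K₀ P G → #G < 2 * i →
      ∃ μ ν θ' θ, μ ≤ l ∧ ν ≤ l ∧ θ' ≤ l ∧ θ ≤ l ∧ ConC l (K * w) μ ν θ' θ b ∧
        DataC n l (K * w) k μ ν θ' θ b ∧ ∀ q ∈ n.primeFactors, q ∈ G ∨ q < 2 ^ (θ + 1) := by
  classical
  obtain ⟨τ₀, hτ₀, H⟩ := toC_pre i K₀ hi
  refine ⟨5 * K₀ + (2 * i + 1) * K₀ + 2 * i + 20, fun K hK => ⟨τ₀, hτ₀, ?_⟩⟩
  intro l b w k n P G hw hwl h hn hn2 hc hNS hP hG hGc
  obtain ⟨q, F, ℓ, hF, hFi, hq, hqG, hmax, hqlt, hℓ, hℓ0, hℓ1, hℓ2, hcase⟩ :=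
    H l b w k n P G hw hwl h hn hn2 hc hNS hP hG hGc
  have hwW : w ≤ K * w := Nat.le_mul_of_pos_left w (by omega)
  have hw0 : (0 : ℝ) ≤ w := Nat.cast_nonneg _
  have hnG : ∀ p, p < q → p ∉ G := fun p hp hpG => absurd (hqlt p hpG) (by omega)
  have hn0 : 0 < n := lt_trans Nat.zero_lt_one h.lehmer.one_lt
  rcases hcase with ⟨q', hq', hq'q, h5, J₁, J₂, hd, hu, hj1, hj2⟩ |
    ⟨J₁, J₂, hs1, hs2, hd, hj1, hj2⟩
  · obtain ⟨m1, m2⟩ := sm_memW h hw hc hwW hq' h5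
    have hq'p := (Nat.prime_of_mem_primeFactors hq').pos
    obtain ⟨b1, b2⟩ := natlog_bounds hq'p
    have hq'n : q' ≤ n := Nat.le_of_dvd hn0 (Nat.dvd_of_mem_primeFactors hq')
    have hJ1 : ∀ p ∈ J₁, p ∈ n.primeFactors ∧ q' < p ∧ p < q := fun p hp =>
      mem_filter.1 (hu ▸ mem_union_left _ hp)
    have hJ2 : ∀ p ∈ J₂, p ∈ n.primeFactors ∧ q' < p ∧ p < q := fun p hp =>
      mem_filter.1 (hu ▸ mem_union_right _ hp)
    have hM : ∀ p ∈ n.primeFactors.filter (fun p => p < q'), p < q' := fun p hp =>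
      (mem_filter.1 hp).2
    have hlt : ∀ p ∈ n.primeFactors.filter (fun p => p < q') ∪ J₁ ∪ J₂, p < q := by
      intro p hp
      rcases mem_union.1 hp with hp | hp
      · rcases mem_union.1 hp with hp | hp
        · exact (hM p hp).trans hq'q
        · exact (hJ1 p hp).2.2
      · exact (hJ2 p hp).2.2
    refine hfin i K₀ K l b w k n P q (Nat.log 2 q') (Real.log q') ℓ G F J₁ J₂
      (n.primeFactors.filter (fun p => p < q')) hi hK hw h hn hn2 hG hP hF hFi hq hqG hmax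
      (filter_subset _ _) (fun p hp => (hJ1 p hp).1) (fun p hp => (hJ2 p hp).1) ?_ ?_ hd hlt
      (fun p hp => hnG p (hlt p hp)) m1 m2 (natlog_le (hq'n.trans hn)) b1 b2 hℓ hℓ0 hℓ1 hℓ2
      (hj1.trans (by linarith)) (hj2.trans (by linarith))
    · rw [disjoint_left]
      intro p hp hp2
      have := hM p hp
      have := (hJ1 p hp2).2.1
      omega
    · rw [disjoint_left]
      intro p hp hp2
      have := hM p hp
      have := (hJ2 p hp2).2.1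
      omega
  · have hlt : ∀ p ∈ (∅ : Finset ℕ) ∪ J₁ ∪ J₂, p < q := by
      intro p hp
      rw [empty_union] at hp
      rcases mem_union.1 hp with hp | hp
      · exact (mem_filter.1 (hs1 hp)).2
      · exact (mem_filter.1 (hs2 hp)).2
    have h1 := one_mem h hw hc hwW
    have hw1 : (1 : ℝ) ≤ ((K * w : ℕ) : ℝ) := by exact_mod_cast (hw.trans hwW)
    refine hfin i K₀ K l b w k n P q 0 0 ℓ G F J₁ J₂ ∅ hi hK hw h hn hn2 hG hP hF hFi hq hqG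
      hmax (empty_subset _) (hs1.trans (filter_subset _ _)) (hs2.trans (filter_subset _ _))
      (disjoint_empty_left _) (disjoint_empty_left _) hd hlt (fun p hp => hnG p (hlt p hp))
      ?_ ?_ (Nat.zero_le _) ?_ ?_ hℓ hℓ0 hℓ1 hℓ2 ?_ ?_
    · rw [prod_empty, Nat.log_one_right]
      exact h1
    · rw [prod_empty, Nat.log_one_right, pow_zero, mul_one]
      calc (1 : ℝ) ≤ ((K * w : ℕ) : ℝ) := hw1
        _ ≤ 4 * ((K * w : ℕ) : ℝ) := le_mul_of_one_le_left (Nat.cast_nonneg _) (by norm_num)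
    · simp
    · have := Real.log_pos (show (1 : ℝ) < 2 by norm_num)
      simp only [Nat.cast_zero]
      linarith
    · rw [sub_zero]
      exact hj1
    · rw [sub_zero]
      exact hj2

end Pool.Agent.Helper58.PS
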