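import Mathlib
import Pool.Agent.Helper58.PS.Defs
import Pool.Agent.Helper13.PS.LsetW
import Pool.Agent.Helper13.PS.MkC
import Pool.Agent.Helper47.PS.ToCOf

/-!
# Project PS2, PS-5c2: the data of case C
-/

set_option autoImplicit false

namespace Pool.Agent.Helper47.PS

open Finset Pool.Agent.Helper6.Lehmer Pool.Agent.Helper6.LehmerCount Pool.Agent.Helper58.LT
open Pool.Agent.Helper6.PW Pool.Agent.Helper78.ST Pool.Agent.Helper58.PS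

theorem finB (i K₀ K l b w k n P q θ' : ℕ) (lq ℓ : ℝ) (G F J₁ J₂ M : Finset ℕ)
    (hi : 2 ≤ i) (hK : 5 * K₀ + (2 * i + 1) * K₀ + 2 * i + 20 ≤ K) (hw : 1 ≤ w) (h : Idx n k)
    (hn : n ≤ 2 ^ l) (hn2 : 2 ^ (l - 1) < n) (hG : Clus n l b w i K₀ P G) (hP : IsP n P)
    (hF : F ⊆ G) (hFi : #F = i) (hq : q ∈ n.primeFactors) (hqG : q ∉ G)
    (hmax : ∀ p ∈ n.primeFactors, p ∈ G ∨ p ≤ q)
    (hM : M ⊆ n.primeFactors) (hJ1 : J₁ ⊆ n.primeFactors) (hJ2 : J₂ ⊆ n.primeFactors)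
    (d1 : Disjoint M J₁) (d2 : Disjoint M J₂) (d3 : Disjoint J₁ J₂)
    (hlt : ∀ p ∈ M ∪ J₁ ∪ J₂, p < q) (hnG : ∀ p ∈ M ∪ J₁ ∪ J₂, p ∉ G)
    (hm : ∏ p ∈ M, p ∈ Lset k (K * w) ((2 : ℝ) ^ θ') (2 ^ Nat.log 2 (∏ p ∈ M, p)))
    (hgrow : (2 : ℝ) ^ θ' ≤ 4 * ((K * w : ℕ) : ℝ) * 2 ^ Nat.log 2 (∏ p ∈ M, p))
    (hθ' : θ' ≤ l) (hl1 : (θ' : ℝ) * Real.log 2 ≤ lq) (hl2 : lq ≤ ((θ' : ℝ) + 1) * Real.log 2)
    (hℓ : ℓ = 2 * (Real.log n - (l : ℝ) * Real.log 2 / 2 - ls F)) (hℓ0 : 0 ≤ ℓ)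
    (hℓ1 : Real.log P - K₀ * w - 2 * Real.log 2 ≤ ℓ)
    (hℓ2 : ℓ ≤ Real.log P + (2 * i + 1) * K₀ * w)
    (hj1 : |ls J₁ - (ℓ - lq) / 2| ≤ 6 * w) (hj2 : |ls J₂ - (ℓ - lq) / 2| ≤ 6 * w) :
    ∃ μ ν θ' θ, μ ≤ l ∧ ν ≤ l ∧ θ' ≤ l ∧ θ ≤ l ∧ ConC l (K * w) μ ν θ' θ b ∧
      DataC n l (K * w) k μ ν θ' θ b ∧ ∀ p ∈ n.primeFactors, p ∈ G ∨ p < 2 ^ (θ + 1) := by
  classical
  have l2 := Real.log_two_lt_d9
  have l2' := Real.log_two_gt_d9
  have l20 : 0 < Real.log 2 := by linarith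
  have hn0 : 0 < n := lt_trans Nat.zero_lt_one h.lehmer.one_lt
  have hwR : (1 : ℝ) ≤ w := by exact_mod_cast hw
  have hKR : 5 * (K₀ : ℝ) + (2 * i + 1) * K₀ + 2 * i + 20 ≤ K := by exact_mod_cast hK
  have hK0 : (0 : ℝ) ≤ K₀ := Nat.cast_nonneg _
  have hiR : (2 : ℝ) ≤ i := by exact_mod_cast hi
  have hPp := Nat.prime_of_mem_primeFactors hP.1
  have hP0 : (0 : ℝ) < P := by exact_mod_cast hPp.pos
  have hPn : P ≤ n := Nat.le_of_dvd hn0 (Nat.dvd_of_mem_primeFactors hP.1)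
  have hWc : ((K * w : ℕ) : ℝ) = K * w := by push_cast; ring
  -- `b log 2 ≤ log P ≤ (b + 1) log 2`
  have hP1 : (b : ℝ) * Real.log 2 ≤ Real.log P := by
    have h1 : (2 : ℝ) ^ b ≤ P := by exact_mod_cast hG.P1.le
    have h2 := Real.log_le_log (by positivity) h1
    rwa [Real.log_pow] at h2
  have hP2 : Real.log P ≤ ((b : ℝ) + 1) * Real.log 2 := by
    have h1 : (P : ℝ) ≤ 2 ^ (b + 1) := by exact_mod_cast hG.P2
    have h2 := Real.log_le_log hP0 h1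
    rw [Real.log_pow] at h2
    push_cast at h2
    exact h2
  have hbl : b ≤ l := by
    have h1 : 2 ^ b < 2 ^ l := hG.P1.trans_le (hPn.trans hn)
    exact ((Nat.pow_lt_pow_iff_right (by norm_num)).1 h1).le
  obtain ⟨ja1, ja2⟩ := abs_le.1 hj1
  obtain ⟨jb1, jb2⟩ := abs_le.1 hj2
  -- products
  obtain ⟨κ, hκ⟩ : ∃ κ : ℝ, κ = K₀ * w := ⟨_, rfl⟩
  have hκ0 : 0 ≤ κ := by rw [hκ]; positivity
  have hiκ : 0 ≤ (i : ℝ) * κ := by positivity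
  have hiw : 2 * (w : ℝ) ≤ i * w := mul_le_mul_of_nonneg_right hiR (by linarith)
  have hiκ2 : 2 * κ ≤ i * κ := mul_le_mul_of_nonneg_right hiR hκ0
  have hKw : 6 * κ + 2 * (i * κ) + 2 * (i * w) + 20 * w ≤ K * w := by
    have h1 := mul_le_mul_of_nonneg_right hKR (show (0 : ℝ) ≤ w by linarith)
    calc 6 * κ + 2 * (i * κ) + 2 * (i * w) + 20 * w
        = (5 * (K₀ : ℝ) + (2 * i + 1) * K₀ + 2 * i + 20) * w := by rw [hκ]; ring
      _ ≤ K * w := h1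
  have hKw2 : (6 * κ + 2 * (i * κ) + 2 * (i * w) + 20 * w) * Real.log 2 ≤ K * w * Real.log 2 :=
    mul_le_mul_of_nonneg_right hKw l20.le
  have hκ2 : κ * (693 / 1000) ≤ κ * Real.log 2 := mul_le_mul_of_nonneg_left (by linarith) hκ0
  have hiκ3 : (i * κ) * (693 / 1000) ≤ (i * κ) * Real.log 2 :=
    mul_le_mul_of_nonneg_left (by linarith) hiκ
  have hw2 : (w : ℝ) * (693 / 1000) ≤ w * Real.log 2 :=
    mul_le_mul_of_nonneg_left (by linarith) (by linarith)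
  have hiw2 : (i * w : ℝ) * (693 / 1000) ≤ (i * w) * Real.log 2 :=
    mul_le_mul_of_nonneg_left (by linarith) (by positivity)
  have hℓ2' : ℓ ≤ Real.log P + 2 * (i * κ) + κ := by
    calc ℓ ≤ Real.log P + (2 * i + 1) * K₀ * w := hℓ2
      _ = Real.log P + 2 * (i * κ) + κ := by rw [hκ]; ring
  rw [← hκ] at hℓ1
  have hnot : ∀ p ∈ M ∪ J₁ ∪ J₂, p ∉ F := fun p hp hpF => hnG p hp (hF hpF)
  have hMG : ∀ p ∈ M, p ∈ M ∪ J₁ ∪ J₂ := fun p hp => mem_union_left _ (mem_union_left _ hp)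
  have hJ1G : ∀ p ∈ J₁, p ∈ M ∪ J₁ ∪ J₂ := fun p hp => mem_union_left _ (mem_union_right _ hp)
  have hJ2G : ∀ p ∈ J₂, p ∈ M ∪ J₁ ∪ J₂ := fun p hp => mem_union_right _ hp
  have hFS : F ⊆ n.primeFactors := hF.trans hG.sub
  have hF0 : 0 < ls F := by
    unfold ls
    apply Finset.sum_pos
    · intro p hp
      exact Real.log_pos (by exact_mod_cast (Nat.prime_of_mem_primeFactors (hFS hp)).one_lt)
    · exact card_pos.1 (by omega)
  have hlam : lam (∏ p ∈ F, p) ≤ Real.exp ((K * w : ℕ) : ℝ) / (2 : ℝ) ^ b := by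
    have hR : ∀ p ∈ F, (2 : ℝ) ^ b * Real.exp (-κ) ≤ p := by
      intro p hp
      have hp0 : (0 : ℝ) < p := by
        exact_mod_cast (Nat.prime_of_mem_primeFactors (hFS hp)).pos
      have h1 := hG.lo p (hF hp)
      rw [← hκ] at h1
      have h2 : (2 : ℝ) ^ b ≤ P := by exact_mod_cast hG.P1.le
      calc (2 : ℝ) ^ b * Real.exp (-κ) ≤ P * Real.exp (-κ) :=
            mul_le_mul_of_nonneg_right h2 (Real.exp_pos _).le
        _ = Real.exp (Real.log P - κ) := by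
            rw [sub_eq_add_neg, Real.exp_add, Real.exp_log hP0]
        _ ≤ Real.exp (Real.log p) := Real.exp_le_exp.2 h1
        _ = p := Real.exp_log hp0
    have h1 := lam_small hFS (by positivity) hR
    rw [hFi] at h1
    refine h1.trans ?_
    have h2 : 2 * (i : ℝ) ≤ Real.exp ((K * w : ℕ) : ℝ) * Real.exp (-κ) := by
      rw [← Real.exp_add, hWc]
      have h3 := Real.add_one_le_exp ((K : ℝ) * w + -κ)
      have h4 : (i : ℝ) ≤ i * w := le_mul_of_one_le_right (by linarith) hwR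
      linarith
    have hE : 0 < Real.exp (-κ) := Real.exp_pos _
    have hb2 : (0 : ℝ) < 2 ^ b := by positivity
    rw [div_le_div_iff₀ (by positivity) hb2]
    calc 2 * (i : ℝ) * 2 ^ b ≤ (Real.exp ((K * w : ℕ) : ℝ) * Real.exp (-κ)) * 2 ^ b :=
          mul_le_mul_of_nonneg_right h2 hb2.le
      _ = Real.exp ((K * w : ℕ) : ℝ) * (2 ^ b * Real.exp (-κ)) := by ring
  have hqs := hG.small q hq hqG
  rw [← hκ] at hqs
  have hMn : ∏ p ∈ M, p ≤ n := prod_sub_le hn0 hM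
  obtain ⟨ν, θ, hν, hθ, hcon, hdat, hqθ⟩ := Pool.Agent.Helper13.PS.mkC (b := b) h hn hM hJ1 hJ2
    hFS hq d1 d2
    (disjoint_left.2 (fun p hp => hnot p (hMG p hp))) d3
    (disjoint_left.2 (fun p hp => hnot p (hJ1G p hp)))
    (disjoint_left.2 (fun p hp => hnot p (hJ2G p hp)))
    (fun hp => lt_irrefl _ (hlt q (hMG q hp))) (fun hp => lt_irrefl _ (hlt q (hJ1G q hp)))
    (fun hp => lt_irrefl _ (hlt q (hJ2G q hp))) (fun hp => hqG (hF hp)) hm hgrow hbl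
    (by rw [hWc]; linarith) (by rw [hWc]; linarith) hF0 (by linarith) hlam
    (by rw [hWc]; linarith) (by rw [hWc]; linarith)
  refine ⟨_, ν, θ', θ, natlog_le (hMn.trans hn), hν, hθ', hθ, hcon, hdat, ?_⟩
  intro p hp
  rcases hmax p hp with h1 | h1
  · exact Or.inl h1
  · exact Or.inr (lt_of_le_of_lt h1 hqθ)

end Pool.Agent.Helper47.PS
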