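import Mathlib
import Pool.Agent.Helper58.PS.Defs
import Pool.Agent.Helper47.PS.ToCOf
import Pool.Agent.Helper47.PS.FinB

/-!
# Project PS2, PS-5c: fewer than `2 i` primes in the cluster: case C
-/

set_option autoImplicit false

namespace Pool.Agent.Helper58.PS

open Finset Pool.Agent.Helper6.Lehmer Pool.Agent.Helper6.LehmerCount Pool.Agent.Helper58.LT
open Pool.Agent.Helper6.PW

/-- PS-5c: fewer than `2 i` primes in the cluster: case C -/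
theorem toC (i K₀ : ℕ) (hi : 2 ≤ i) : ∃ K₁ : ℕ, ∀ K : ℕ, K₁ ≤ K → ∃ τ₀ : ℝ, 0 < τ₀ ∧
    ∀ (l b w k n P : ℕ) (G : Finset ℕ), 1 ≤ w → (w : ℝ) ≤ τ₀ * l → Idx n k → n ≤ 2 ^ l →
      2 ^ (l - 1) < n → n.primeFactors.card ≤ w → ¬ NSfail n l w → IsP n P →
      Clus n l b w i K₀ P G → #G < 2 * i →
      ∃ μ ν θ' θ, μ ≤ l ∧ ν ≤ l ∧ θ' ≤ l ∧ θ ≤ l ∧ ConC l (K * w) μ ν θ' θ b ∧
        DataC n l (K * w) k μ ν θ' θ b ∧ ∀ q ∈ n.primeFactors, q ∈ G ∨ q < 2 ^ (θ + 1) :=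
  toC_of Pool.Agent.Helper47.PS.finB i K₀ hi

end Pool.Agent.Helper58.PS
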